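import Mathlib
import Pool.Agent.Q217.MZ.DirPi
import Pool.Agent.Q217.MZ.Unif

/-!
# Arbitrary independent numbers and multiple zeta values of large weight

Let `θ_1, ..., θ_l` be real numbers, for instance multiple zeta values of small weight, and `F` a finite set of products
`M(n)` of multiple zeta values `ζ(a_1 n + b_1, ..., a_r n + b_r)` whose first argument grows with `n`.

1. For arbitrary fixed real coefficients `x_M` the sum `∑ x_M M(n)` is larger than `N ^ (-n)` in absolute value for all
large `n`, unless it vanishes identically because `∑ x_M M` is zero in the stuffle algebra over the real numbers; the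
base `N` only depends on `F`.

2. The numbers `θ_i` are linearly independent over `ℚ` if and only if they satisfy, with the `M(n)`, only the stuffle
relations as long as the coefficients are bounded: for every `H` there is `n0` such that for `n ≥ n0` and integers
`|c_{M,i}| ≤ H` one has `|∑ c_{M,i} θ_i M(n)| > N ^ (-n)` unless all the combinations `∑ c_{M,i} M` are zero in the
stuffle algebra.

So the period conjecture for a space of motivic periods (with basis `θ_i`) implies the period conjecture for its product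
with the stuffle words with growing arguments, for coefficients of bounded height and large `n`, and in this sense every
result about the linear independence of multiple zeta values extends to large weights. No measure of independence is
required: `SmallAndLargeWeights` in this folder has coefficients up to `C ^ n` for the few families `θ` for which a
polynomial measure is known.
-/

set_option autoImplicit false

namespace Pool.Agent.Results.MP_e54452_nt.IndependentNumbers

/-- `trunc [s_1, ..., s_r] m` is the sum of `∏ k_i ^ (-s_i)` over `m > k_1 > ... > k_r ≥ 1` -/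
noncomputable def trunc : List ℕ → ℕ → ℝ
  | [], _ => 1
  | s :: l, m => ∑ j ∈ Finset.Ico 1 m, trunc l j / (j : ℝ) ^ s

/-- the multiple zeta value `ζ(s_1, ..., s_r)`, `s_1` belongs to the largest variable -/
noncomputable def mzv : List ℕ → ℝ
  | [] => 1
  | s :: l => ∑' k : ℕ, trunc l (k + 1) / ((k + 1 : ℕ) : ℝ) ^ s

/-- words `[(a_1, b_1), ..., (a_r, b_r)]` with `r ≥ 1`, `a_1 ≥ 1` and no letter `(0, 0)` -/
def Admissible : List (ℕ × ℕ) → Prop
  | [] => False
  | x :: l => 1 ≤ x.1 ∧ ∀ y ∈ l, y ≠ (0, 0)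

/-- for a word `w = [(a_1, b_1), ..., (a_r, b_r)]` the multiple zeta value `ζ(a_1 n + b_1, ..., a_r n + b_r)` -/
noncomputable def zeta (n : ℕ) (w : List (ℕ × ℕ)) : ℝ := mzv (w.map fun x => x.1 * n + x.2)

/-- the stuffle product of two words, as a list of words (letters are added componentwise) -/
def stuffle : List (ℕ × ℕ) → List (ℕ × ℕ) → List (List (ℕ × ℕ))
  | [], v => [v]
  | x :: u, [] => [x :: u]
  | x :: u, y :: v => (stuffle u (y :: v)).map (x :: ·) ++ (stuffle (x :: u) v).map (y :: ·) ++
      (stuffle u v).map ((x + y) :: ·)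
termination_by u v => u.length + v.length

/-- the stuffle product of several words -/
def stuffles : List (List (ℕ × ℕ)) → List (List (ℕ × ℕ))
  | [] => [[]]
  | u :: M => (stuffles M).flatMap (stuffle u)

/-- the coefficient of the word `w` in the stuffle expansion of the combination `∑ c M • M` of the
products `M ∈ F` -/
def coeff (F : Finset (List (List (ℕ × ℕ)))) (c : List (List (ℕ × ℕ)) → ℤ) (w : List (ℕ × ℕ)) : ℤ :=
  ∑ M ∈ F, c M * ((stuffles M).countP (· = w) : ℤ)

/-- the value `∑ (∑_i c M i θ_i) ∏_{u ∈ M} ζ(u(n))`, the outer sum over `M ∈ F` -/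
noncomputable def value {l : ℕ} (θ : Fin l → ℝ) (F : Finset (List (List (ℕ × ℕ))))
    (c : List (List (ℕ × ℕ)) → Fin l → ℤ) (n : ℕ) : ℝ :=
  ∑ M ∈ F, (∑ i, (c M i : ℝ) * θ i) * (M.map fun u => zeta n u).prod

/-- the coefficient of the word `w` in the stuffle expansion of `∑ x M • M`, real coefficients -/
noncomputable def coeffReal (F : Finset (List (List (ℕ × ℕ)))) (x : List (List (ℕ × ℕ)) → ℝ)
    (w : List (ℕ × ℕ)) : ℝ := ∑ M ∈ F, x M * ((stuffles M).countP (· = w) : ℝ)

/-- For every finite set `F` of products of admissible words (the empty product is allowed) there are `N ≥ 1` and `m0`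
such that for every `H` there is `n0` such that for every `n ≥ n0` and all integers `c M i` of absolute value at most `H`:
either for every `i` the combination `∑ c M i • M` vanishes in the stuffle algebra, and its value is zero at every
`m ≥ m0`, or `∑ c M i θ_i M(n)` is larger than `N ^ (-n)` in absolute value. -/
def OnlyStuffleRelations {l : ℕ} (θ : Fin l → ℝ) : Prop :=
  ∀ F : Finset (List (List (ℕ × ℕ))), (∀ M ∈ F, ∀ u ∈ M, Admissible u) →
    ∃ N m0 : ℕ, 1 ≤ N ∧ ∀ H : ℕ, ∃ n0 : ℕ, ∀ n : ℕ, n0 ≤ n → ∀ c : List (List (ℕ × ℕ)) → Fin l → ℤ,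
      (∀ M ∈ F, ∀ i, |c M i| ≤ H) →
      (∀ i, (∀ w, coeff F (fun M => c M i) w = 0) ∧
        ∀ m : ℕ, m0 ≤ m → ∑ M ∈ F, (c M i : ℝ) * (M.map fun u => zeta m u).prod = 0) ∨
      ((N : ℝ) ^ n)⁻¹ < |value θ F c n|

open Pool.Agent.TH507.WD (hr mz) in
lemma trunc_eq : ∀ l m, trunc l m = hr l m := by
  intro l
  induction l with
  | nil => intro m; rw [trunc, hr]
  | cons s l ih =>
    intro m
    rw [trunc, hr]
    exact Finset.sum_congr rfl fun j _ => by rw [ih]

open Pool.Agent.TH507.WD (mz) in
lemma mzv_eq : ∀ l, mzv l = mz l := by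
  intro l
  cases l with
  | nil => rw [mzv, mz]
  | cons s l =>
    rw [mzv, mz]
    exact tsum_congr fun k => by rw [trunc_eq]

lemma st_eq : ∀ u v, stuffle u v = Pool.Agent.TH507.WG.st u v := by
  intro u v
  induction u, v using Pool.Agent.TH507.WG.st.induct with
  | case1 v => rw [stuffle, Pool.Agent.TH507.WG.st]
  | case2 x u => rw [stuffle, Pool.Agent.TH507.WG.st]
  | case3 x u y v ih1 ih2 ih3 => rw [stuffle, Pool.Agent.TH507.WG.st, ih1, ih2, ih3]

lemma stl_eq : ∀ M, stuffles M = Pool.Agent.TH507.WG.stl M := by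
  intro M
  induction M with
  | nil => rw [stuffles, Pool.Agent.TH507.WG.stl]
  | cons u M ih =>
    rw [stuffles, Pool.Agent.TH507.WG.stl, ih]
    congr 1
    funext v
    exact st_eq u v

lemma coeff_eq (F : Finset (List (List (ℕ × ℕ)))) (c : List (List (ℕ × ℕ)) → ℤ) (w : List (ℕ × ℕ)) :
    coeff F c w = Pool.Agent.TH507.DS.coM F c w := by
  rw [coeff, Pool.Agent.TH507.DS.coM]
  simp only [stl_eq]

lemma coeffReal_eq (F : Finset (List (List (ℕ × ℕ)))) (x : List (List (ℕ × ℕ)) → ℝ) (w : List (ℕ × ℕ)) :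
    coeffReal F x w = Pool.Agent.Q217.MZ.coR F x w := by
  rw [coeffReal, Pool.Agent.Q217.MZ.coR]
  simp only [stl_eq]

lemma zeta_eq (n : ℕ) (u : List (ℕ × ℕ)) :
    zeta n u = Pool.Agent.TH507.WD.mz (Pool.Agent.TH507.WG.ar n u) := mzv_eq _

lemma adm {F : Finset (List (List (ℕ × ℕ)))} (hF : ∀ M ∈ F, ∀ u ∈ M, Admissible u) :
    ∀ M ∈ F, ∀ u ∈ M, Pool.Agent.TH507.WG.HP u ∧ Pool.Agent.TH507.WG.OK u := by
  intro M hM u hu
  have h := hF M hM u hu
  cases u with
  | nil => exact h.elim
  | cons x l =>
    refine ⟨h.1, fun y hy hy1 => ?_⟩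
    rcases List.mem_cons.1 hy with rfl | hy
    · have h13 := h.1
      omega
    · have h13 := h.2 y hy
      by_contra h14
      exact h13 (Prod.ext hy1 (by show y.2 = 0; omega))

lemma len (F : Finset (List (List (ℕ × ℕ)))) {n : ℕ} (hn : ∑ M ∈ F, ((M.map List.length).sum + 1) ≤ n) :
    ∀ M ∈ F, (M.map List.length).sum + 1 ≤ n := fun M hMF => by
  have := Finset.single_le_sum (f := fun M : List (List (ℕ × ℕ)) => (M.map List.length).sum + 1)
    (fun _ _ => Nat.zero_le _) hMF
  omega

/-- **Theorem.** -/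
theorem result :
    (∀ F : Finset (List (List (ℕ × ℕ))), (∀ M ∈ F, ∀ u ∈ M, Admissible u) →
      ∃ N m0 : ℕ, 1 ≤ N ∧ ∀ x : List (List (ℕ × ℕ)) → ℝ,
        ((∀ w, coeffReal F x w = 0) ∧ ∀ m : ℕ, m0 ≤ m → ∑ M ∈ F, x M * (M.map fun u => zeta m u).prod = 0) ∨
        ∃ n0 : ℕ, ∀ n : ℕ, n0 ≤ n → ((N : ℝ) ^ n)⁻¹ < |∑ M ∈ F, x M * (M.map fun u => zeta n u).prod|) ∧
    (∀ (l : ℕ) (θ : Fin l → ℝ), LinearIndependent ℚ θ ↔ OnlyStuffleRelations θ) := by
  classical
  refine ⟨fun F hF => ?_, fun l θ => ⟨fun hθ F hF => ?_, fun h => ?_⟩⟩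
  · have hM := adm hF
    obtain ⟨N, hN, h⟩ := Pool.Agent.Q217.MZ.real_unif F hM
    refine ⟨N, ∑ M ∈ F, ((M.map List.length).sum + 1), hN, fun x => ?_⟩
    by_cases hw : ∃ w, Pool.Agent.Q217.MZ.coR F x w ≠ 0
    · right
      obtain ⟨n0, hn0⟩ := h x hw
      refine ⟨n0, fun n hn => ?_⟩
      simp only [zeta_eq]
      exact hn0 n hn
    · left
      push Not at hw
      refine ⟨fun w => by rw [coeffReal_eq, hw w], fun m hm => ?_⟩
      simp only [zeta_eq]
      rw [Pool.Agent.Q217.MZ.expandR F hM (len F hm) x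
        (F.biUnion fun M => (Pool.Agent.TH507.WG.stl M).toFinset)
        (fun M hM w hw => Finset.mem_biUnion.2 ⟨M, hM, List.mem_toFinset.2 hw⟩)]
      exact Finset.sum_eq_zero fun w _ => by rw [hw w, zero_mul]
  · have hM := adm hF
    obtain ⟨N, hN, h⟩ := Pool.Agent.Q217.MZ.heights θ hθ F hM
    refine ⟨N, ∑ M ∈ F, ((M.map List.length).sum + 1), hN, fun H => ?_⟩
    obtain ⟨n0, hn0⟩ := h H
    refine ⟨n0, fun n hn c hc => ?_⟩
    by_cases hw : ∃ w i, Pool.Agent.TH507.DS.coM F (fun M => c M i) w ≠ 0
    · right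
      have h1 := hn0 n hn c hc hw
      rw [value]
      simp only [zeta_eq]
      exact h1
    · left
      push Not at hw
      refine fun i => ⟨fun w => by rw [coeff_eq, hw w i], fun m hm => ?_⟩
      have h7 := Pool.Agent.TH507.DS.expandM F hM (len F hm) (fun M => c M i)
        (F.biUnion fun M => (Pool.Agent.TH507.WG.stl M).toFinset)
        (fun M hM w hw => Finset.mem_biUnion.2 ⟨M, hM, List.mem_toFinset.2 hw⟩)
      simp only [zeta_eq]
      rw [h7]
      exact Finset.sum_eq_zero fun w _ => by rw [hw w i, Int.cast_zero, zero_mul]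
  · -- the converse: the empty product
    obtain ⟨N, m0, hN, h⟩ := h {[]} (by simp)
    rw [← LinearIndependent.iff_fractionRing (R := ℤ) (K := ℚ), Fintype.linearIndependent_iff]
    intro c hc i
    obtain ⟨n0, hn0⟩ := h (∑ i, (c i).natAbs)
    have h1 := hn0 n0 le_rfl (fun _ => c) (fun M _ i => by
      rw [Int.abs_eq_natAbs]
      exact_mod_cast Finset.single_le_sum (f := fun i => (c i).natAbs) (fun _ _ => Nat.zero_le _)
        (Finset.mem_univ i))
    have hv : value θ {[]} (fun _ => c) n0 = 0 := by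
      rw [value, Finset.sum_singleton, List.map_nil, List.prod_nil, mul_one, ← hc]
      exact Finset.sum_congr rfl fun i _ => by rw [zsmul_eq_mul]
    rcases h1 with h1 | h1
    · have h2 := (h1 i).1 []
      rw [coeff, Finset.sum_singleton] at h2
      have h3 : (stuffles []).countP (· = []) = 1 := by
        rw [stuffles]
        simp
      rw [h3] at h2
      simpa using h2
    · exfalso
      rw [hv, abs_zero] at h1
      have hN0 : (0 : ℝ) < N := by exact_mod_cast hN
      have : 0 < ((N : ℝ) ^ n0)⁻¹ := by positivity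
      linarith

end Pool.Agent.Results.MP_e54452_nt.IndependentNumbers
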