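import Pool.Agent.Q23.AQ.Ell
import Pool.Agent.Q23.AQ.Few
import Pool.Agent.Q232.LiS

/-!
# Periods of mixed Tate motives: polylogarithms at several multiples of an algebraic point, over the multiple zeta values

For a point `z` of the unit disc cut along `(-1, 0]` consider the numbers `log z`, `Li_k(z)`, `Li_k(c_j z)` (`1 ≤ k ≤ w`,
`j ≤ r`, `1 > c_1 > ⋯ > c_r > 0`) and `log (z + x_i)` (`x_i > 0` distinct). If `z`, `c_j`, `x_i` are algebraic, they are periods of
mixed Tate motives, extensions of iterated integrals of the kind which has the multiple zeta values as its limits for `z → 1`.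
The period conjecture (injectivity of the period map) predicts that for `z` outside of a small set there are no polynomial
relations between these numbers, not even if multiple zeta values and powers of `2 π i` are allowed as coefficients.

The theorem: for every finite set of complex algebraic points `z` of bounded degree (in a compact subset of the cut disc) this
holds for all but few of the points, and of the `n`-tuples of points, for relations of bounded degree with coefficients of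
polynomial height, and even for approximate relations; here `ξ_1, …, ξ_g` are arbitrary complex constants, for instance all the
multiple zeta values of weight at most `W` and powers of `2 π i`.
-/

set_option autoImplicit false

open Set Filter Topology NumberField

namespace Pool.Agent.Results.MP_e54452_nt.SeveralArguments

/-- The polylogarithm `Li_k(z) = ∑_{n ≥ 1} z ^ n / n ^ k`, `|z| < 1`. -/
noncomputable def Li (k : ℕ) (z : ℂ) : ℂ := ∑' n : ℕ, z ^ (n + 1) / ((n : ℂ) + 1) ^ k

/-- The `r w + m + w + 1` functions `Li_k(c_j z)` (`1 ≤ k ≤ w`, `j < r`); `log (z + x_i)` (`i < m`); `log z`, `Li_1(z)`, …,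
`Li_w(z)`. -/
noncomputable def fn {r m w : ℕ} (c : Fin r → ℝ) (x : Fin m → ℝ) (y : ((Fin r × Fin w) ⊕ Fin m) ⊕ Fin (w + 1))
    (z : ℂ) : ℂ :=
  match y with
  | Sum.inl (Sum.inl (j, k)) => Li ((k : ℕ) + 1) (c j * z)
  | Sum.inl (Sum.inr i) => Complex.log (z + x i)
  | Sum.inr k => if (k : ℕ) = 0 then Complex.log z else Li k z

/-- The open unit disc cut along `(-1, 0]`. -/
def CutDisc : Set ℂ := {z | ‖z‖ < 1 ∧ (z.im ≠ 0 ∨ 0 < z.re)}

/-- The exceptional `n`-tuples of elements of the finite subset `X` of the number field `F ⊆ ℂ`: there is a polynomial `P`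
of degree at most `d` in each variable, with coefficients of the form `∑ ξ_a ι(c_a)`, where the `c_a` are integers of `F`
all of whose conjugates have absolute value at most `T ^ A`, such that the value of `P` at the numbers `f y (ι (q h))` is
at most `T ^ (-B)` times the absolute value of some nonzero coefficient of `P`. -/
def Exceptional {κ : Type} (f : κ → ℂ → ℂ) (n d : ℕ) {g : ℕ} (F : Type) [Field F] [NumberField F] (ι : F →+* ℂ)
    (ξ : Fin g → ℂ) (X : Finset F) (A B T : ℝ) : Set (Fin n → F) :=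
  {q | (∀ h, q h ∈ X) ∧ ∃ P : MvPolynomial (Fin n × κ) ℂ, (∀ x, P.degreeOf x ≤ d) ∧
    (∀ s, ∃ c : Fin g → 𝓞 F, (∀ a (φ : F →+* ℂ), ‖φ (c a)‖ ≤ T ^ A) ∧ P.coeff s = ∑ a, ξ a * ι (c a)) ∧
    ∃ s₀, P.coeff s₀ ≠ 0 ∧ ‖MvPolynomial.aeval (fun x : Fin n × κ => f x.2 (ι (q x.1))) P‖ ≤
      T ^ (-B) * ‖P.coeff s₀‖}

/-- For all `m`, `n`, `g`, `d`, `A` and `ε > 0` there are `B`, `C`, `T₀` such that for every number field `F` of degree at
most `m`, every embedding `ι` of `F` in `ℂ`, all complex numbers `ξ_1, …, ξ_g`, all `T ≥ T₀` and every finite set `X` of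
elements of `F` whose images are in `D` and which are quotients of two integers of `F` all of whose
conjugates have absolute value at most `T`, the number of exceptional `n`-tuples of `X ^ n` is at most
`C T^ε |X|^(n - 1)`. -/
def FewExceptions {κ : Type} (f : κ → ℂ → ℂ) (D : Set ℂ) : Prop :=
  ∀ (m n g d : ℕ) (A ε : ℝ), 0 < ε → ∃ B C T₀ : ℝ, ∀ (F : Type) [Field F] [NumberField F],
    Module.finrank ℚ F ≤ m → ∀ (ι : F →+* ℂ) (ξ : Fin g → ℂ) (T : ℝ), T₀ ≤ T → ∀ X : Finset F,
      (∀ x ∈ X, ι x ∈ D ∧ ∃ a b : 𝓞 F, b ≠ 0 ∧ (∀ φ : F →+* ℂ, ‖φ a‖ ≤ T ∧ ‖φ b‖ ≤ T) ∧ x = a / b) →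
      ((Exceptional f n d F ι ξ X A B T).ncard : ℝ) ≤ C * T ^ ε * (X.card : ℝ) ^ (n - 1)

section proofs

theorem li_an (k : ℕ) {z : ℂ} (hz : ‖z‖ < 1) : AnalyticAt ℂ (Li k) z := by
  obtain ⟨r, h1, h2⟩ := exists_between hz
  have hr : 0 ≤ r := (norm_nonneg z).trans h1.le
  have hd : DifferentiableOn ℂ (fun w : ℂ => ∑' n : ℕ, w ^ (n + 1) / ((n : ℂ) + 1) ^ k) (Metric.ball 0 r) := by
    refine Complex.differentiableOn_tsum_of_summable_norm (u := fun n : ℕ => r ^ (n + 1)) ?_ ?_ Metric.isOpen_ball ?_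
    · exact (summable_nat_add_iff 1).2 (summable_geometric_of_lt_one hr h2)
    · intro n
      fun_prop
    · intro n w hw
      rw [mem_ball_zero_iff] at hw
      rw [norm_div, norm_pow, norm_pow]
      have h3 : ‖((n : ℂ) + 1)‖ = (n : ℝ) + 1 := by
        have : ((n : ℂ) + 1) = (((n : ℝ) + 1 : ℝ) : ℂ) := by push_cast; rfl
        rw [this, Complex.norm_real, Real.norm_of_nonneg (by positivity)]
      rw [h3]
      have h4 : (1 : ℝ) ≤ ((n : ℝ) + 1) ^ k := one_le_pow₀ (by linarith [Nat.cast_nonneg (α := ℝ) n])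
      calc ‖w‖ ^ (n + 1) / ((n : ℝ) + 1) ^ k ≤ ‖w‖ ^ (n + 1) / 1 := by gcongr
        _ = ‖w‖ ^ (n + 1) := div_one _
        _ ≤ r ^ (n + 1) := by gcongr
  exact hd.analyticOnNhd Metric.isOpen_ball z (by rwa [mem_ball_zero_iff])

theorem li_real (k : ℕ) (t : ℝ) : Li k (t : ℂ) = ((TH818.AP.Li k t : ℝ) : ℂ) := by
  unfold Li TH818.AP.Li
  rw [Complex.ofReal_tsum]
  refine tsum_congr fun n => ?_
  push_cast
  rfl

theorem half_mem : (((1 / 2 : ℝ)) : ℂ) ∈ CutDisc := by
  refine ⟨?_, Or.inr ?_⟩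
  · rw [Complex.norm_real]; norm_num
  · rw [Complex.ofReal_re]; norm_num

theorem cut_star : StarConvex ℝ (((1 / 2 : ℝ)) : ℂ) CutDisc := by
  intro z hz x y hx hy hxy
  obtain ⟨h1, h2⟩ := hz
  refine ⟨?_, ?_⟩
  · have h3 := (convex_ball (0 : ℂ) 1) (mem_ball_zero_iff.2 half_mem.1) (mem_ball_zero_iff.2 h1) hx hy hxy
    exact mem_ball_zero_iff.1 h3
  · have him : (x • (((1 / 2 : ℝ)) : ℂ) + y • z).im = y * z.im := by simp
    have hre : (x • (((1 / 2 : ℝ)) : ℂ) + y • z).re = x * (1 / 2) + y * z.re := by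
      simp
    rw [him, hre]
    rcases hy.eq_or_lt with h4 | h4
    · right
      have hx1 : x = 1 := by linarith
      subst h4
      rw [hx1]
      norm_num
    · rcases h2 with h2 | h2
      · exact Or.inl (mul_ne_zero h4.ne' h2)
      · right
        have := mul_pos h4 h2
        linarith [mul_nonneg hx (show (0 : ℝ) ≤ 1 / 2 by norm_num)]

theorem cut_pre : IsPreconnected CutDisc := (cut_star.isPathConnected half_mem).isConnected.isPreconnected

end proofs

/-- Let `1 > c_1 > ⋯ > c_r > 0` and let `x_1, …, x_m > 0` be distinct. Then there are few exceptions for the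
`r w + m + w + 1` functions `fn c x` in every compact subset of the unit disc cut along `(-1, 0]`. -/
theorem result {r m : ℕ} (w : ℕ) (c : Fin r → ℝ) (hc : StrictAnti c) (hc0 : ∀ j, 0 < c j) (hc1 : ∀ j, c j < 1)
    (x : Fin m → ℝ) (hx : Function.Injective x) (hx0 : ∀ i, 0 < x i)
    (D : Set ℂ) (hD : IsCompact D) (hDc : D ⊆ CutDisc) : FewExceptions (fn (w := w) c x) D := by
  intro m' n g d A ε hε
  -- a point between the singularities of the logarithms and 0
  obtain ⟨x₀, hx₀, hx₀'⟩ : ∃ x₀ : ℝ, x₀ < 0 ∧ ∀ i, -x i < x₀ := by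
    have h1 : ∀ᶠ s in 𝓝[<] (0 : ℝ), ∀ i, -x i < s := by
      rw [eventually_all]
      intro i
      exact mem_nhdsWithin_of_mem_nhds (lt_mem_nhds (by linarith [hx0 i]))
    obtain ⟨s, hs1, hs2⟩ := (h1.and self_mem_nhdsWithin).exists
    exact ⟨s, hs2, hs1⟩
  obtain ⟨y, hy1, hy⟩ : ∃ y : ℝ, 1 < y ∧ ∀ j, 1 < c j * y := by
    have h1 : ∀ᶠ s in atTop, ∀ j, 1 < c j * s := by
      rw [eventually_all]
      intro j
      exact (tendsto_id.const_mul_atTop (hc0 j)).eventually_gt_atTop 1
    obtain ⟨s, hs1, hs2⟩ := (h1.and (eventually_gt_atTop 1)).exists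
    exact ⟨s, hs2, hs1⟩
  have hlf : ∀ i t, x₀ < t → AnalyticAt ℝ (TH659.AQ.lf x i) t := by
    intro i t ht
    apply TH659.AQ.lf_an
    linarith [hx₀' i]
  have hlogs : ∀ (d : ℕ) (a b : ℝ), 0 < a → a < b →
      TH818.AP.RIndep (fun (e : Fin m → Fin (d + 1)) (t : ℝ) => ∏ j, TH659.AQ.lf x j t ^ (e j : ℕ)) a b := by
    intro d a b ha hab p hp
    obtain ⟨c', hc'a, hc'x⟩ : ∃ c' : ℝ, c' < a ∧ ∀ j, c' < -x j := by
      have h1 : ∀ᶠ s in atBot, ∀ j, s < -x j := by
        rw [eventually_all]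
        intro j
        exact eventually_lt_atBot _
      obtain ⟨s, hs1, hs2⟩ := (h1.and (eventually_lt_atBot a)).exists
      exact ⟨s, hs2, hs1⟩
    have h1 := Q23.AQ.logC d m c' x hx hc'x a b (fun j => by linarith [hx0 j]) hc'a hab (fun e t => (p e).eval t)
      (fun e t _ => AnalyticOnNhd.eval_polynomial _ t (mem_univ _)) hp
    funext e
    have h3 : ∀ t, c' < t → (p e).eval t = 0 := h1 e
    refine Polynomial.eq_zero_of_infinite_isRoot _ ((Set.Ioi_infinite c').mono ?_)
    intro t ht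
    exact h3 t ht
  -- the polylogarithms of the multiples
  have h1 : ∀ (d : ℕ) (a b : ℝ), 0 < a → a < b → b < 1 →
      TH818.AP.RIndep (fun (e : ((Fin r × Fin w) ⊕ Fin m) → Fin (d + 1)) (t : ℝ) =>
        ∏ p, Sum.elim (fun (z : Fin r × Fin w) (t : ℝ) => TH818.AP.Li ((z.2 : ℕ) + 1) (c z.1 * t))
          (TH659.AQ.lf x) p t ^ (e p : ℕ)) a b := by
    intro d a b ha hab hb
    refine Q232.comb_lis (TH659.AQ.lf x) c hc hc0 x₀ y hx₀ hy a b ha hab (by linarith) (fun j => ?_)
      (fun i t ht => hlf i t ht.1) (hlogs d a b ha hab)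
    have h2 : c j * b ≤ 1 * b := mul_le_mul_of_nonneg_right (hc1 j).le (by linarith)
    linarith
  set u : ((Fin r × Fin w) ⊕ Fin m) → ℝ → ℝ :=
    Sum.elim (fun (z : Fin r × Fin w) (t : ℝ) => TH818.AP.Li ((z.2 : ℕ) + 1) (c z.1 * t)) (TH659.AQ.lf x) with hu
  have huan : ∀ p, ∀ t ∈ Icc (0 : ℝ) 1, AnalyticAt ℝ (u p) t := by
    rintro (⟨j, k⟩ | i) t ht
    · refine Q232.li_an_mul _ ⟨?_, ?_⟩
      · have := mul_nonneg (hc0 j).le ht.1
        linarith
      · have h2 : c j * t ≤ c j * 1 := mul_le_mul_of_nonneg_left ht.2 (hc0 j).le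
        linarith [hc1 j]
    · exact hlf i t (hx₀.trans_le ht.1)
  have h2 : ∀ d : ℕ, TH818.AP.RIndep (fun (e : (((Fin r × Fin w) ⊕ Fin m) ⊕ Fin (w + 1)) → Fin (d + 1)) (t : ℝ) =>
      ∏ p, Sum.elim u (fun k : Fin (w + 1) => TH818.AP.pl (k : ℕ)) p t ^ (e p : ℕ)) (1 / 4) (3 / 4) := by
    intro d
    exact Q23.AQ.comb_li u (1 / 4) (3 / 4) (by norm_num) (by norm_num) (by norm_num) huan
      (fun a' b' ha' hab' hb' => h1 d a' b' (by linarith) hab' (by linarith)) (1 / 4) (3 / 4) le_rfl (by norm_num) le_rfl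
  -- the complex functions
  have han : ∀ y, ∀ t ∈ CutDisc, AnalyticAt ℂ (fn (w := w) c x y) t := by
    rintro ((⟨j, k⟩ | i) | k) t ht
    · have h4 : fn (w := w) c x (Sum.inl (Sum.inl (j, k))) = fun z => Li ((k : ℕ) + 1) (c j * z) := rfl
      rw [h4]
      have h5 : ‖(c j : ℂ) * t‖ < 1 := by
        rw [norm_mul, Complex.norm_real, Real.norm_of_nonneg (hc0 j).le]
        have h6 : c j * ‖t‖ ≤ 1 * ‖t‖ := mul_le_mul_of_nonneg_right (hc1 j).le (norm_nonneg _)
        linarith [ht.1]
      exact AnalyticAt.comp (f := fun z : ℂ => (c j : ℂ) * z) (li_an _ h5) (analyticAt_const.mul analyticAt_id)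
    · have h4 : fn (w := w) c x (Sum.inl (Sum.inr i)) = fun z => Complex.log (z + x i) := rfl
      rw [h4]
      refine (analyticAt_id.add analyticAt_const).clog ?_
      show t + (x i : ℂ) ∈ Complex.slitPlane
      rw [Complex.mem_slitPlane_iff, Complex.add_re, Complex.ofReal_re, Complex.add_im, Complex.ofReal_im, add_zero]
      rcases ht.2 with h5 | h5
      · exact Or.inr h5
      · exact Or.inl (by linarith [hx0 i])
    · by_cases hk : (k : ℕ) = 0
      · have h4 : fn (w := w) c x (Sum.inr k) = fun z => Complex.log z := by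
          funext z
          simp [fn, hk]
        rw [h4]
        refine analyticAt_id.clog ?_
        rw [Complex.mem_slitPlane_iff]
        rcases ht.2 with h5 | h5
        · exact Or.inr h5
        · exact Or.inl h5
      · have h4 : fn (w := w) c x (Sum.inr k) = Li k := by
          funext z
          simp [fn, hk]
        rw [h4]
        exact li_an k ht.1
  refine Q23.AQ.fewC (fn (w := w) c x) D hD (fun y t ht => han y t (hDc ht)) (fun t ht => ?_) m' n g d A ε hε
  refine Q23.AQ.locInd_real _ (fn (w := w) c x) CutDisc cut_pre han (1 / 4) (3 / 4) ?_ ?_ h2 t (hDc ht)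
  · intro t ht
    refine ⟨?_, Or.inr ?_⟩
    · rw [Complex.norm_real, Real.norm_of_nonneg (by linarith [ht.1])]
      linarith [ht.2]
    · rw [Complex.ofReal_re]
      linarith [ht.1]
  · rintro ((⟨j, k⟩ | i) | k) t ht
    · show Li ((k : ℕ) + 1) (c j * t) = ((TH818.AP.Li ((k : ℕ) + 1) (c j * t) : ℝ) : ℂ)
      rw [← li_real]
      push_cast
      rfl
    · show Complex.log (t + x i) = ((Real.log (t + x i) : ℝ) : ℂ)
      rw [Complex.ofReal_log (by linarith [ht.1, hx0 i])]
      push_cast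
      rfl
    · by_cases hk : (k : ℕ) = 0
      · have h4 : fn (w := w) c x (Sum.inr k) (t : ℂ) = Complex.log t := by
          simp [fn, hk]
        rw [h4, ← Complex.ofReal_log (by linarith [ht.1])]
        show ((Real.log t : ℝ) : ℂ) = ((TH818.AP.pl (k : ℕ) t : ℝ) : ℂ)
        unfold TH818.AP.pl
        rw [if_pos hk]
      · have h4 : fn (w := w) c x (Sum.inr k) (t : ℂ) = Li k t := by
          simp [fn, hk]
        rw [h4, li_real]
        show ((TH818.AP.Li (k : ℕ) t : ℝ) : ℂ) = ((TH818.AP.pl (k : ℕ) t : ℝ) : ℂ)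
        unfold TH818.AP.pl
        rw [if_neg hk]

end Pool.Agent.Results.MP_e54452_nt.SeveralArguments
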