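import Mathlib
import Pool.Agent.Q217.MZ.DirPi
import Pool.Agent.Q217.MZ.Fam

/-!
# Relations which mix multiple zeta values of small and of large weight

Consider the motivic periods `∑ c_{M,i} θ_i M(n)`, where the `M(n)` are products of multiple zeta values
`ζ(a_1 n + b_1, ..., a_r n + b_r)` (the first argument grows with `n`, the others may be constant), the `θ_i` are
motivic periods of small weight, and the `c_{M,i}` are integers.  The period conjecture says that such a combination has
the value zero only if it is zero.  We prove this for coefficients at most `C ^ n`, `C > 1`, and large `n`, whenever the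
real numbers `θ_i` have a measure of linear independence: then the value is zero or at most `B ^ (-n)` only if for every
`i` the combination `∑ c_{M,i} M` is zero in the stuffle algebra.  The hypothesis is satisfied by `1, ζ(2), ζ(3)`, by
`1, ζ(3), ζ(4)`, by `1, ζ(5)` and by the powers `1, π, ..., π ^ D`.

The starting files `StuffleRelations` and `UniformStuffleRelations` of this folder have rational and algebraic
coefficients; `MP_5d33ca_ag.MultizetaAndTwoPiI` has Laurent polynomials in `2 π i` and words without constant arguments.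

The proof combines the word functions of the starting files (`Pool.Agent.TH507.WG`) with a form of the estimate
`Pool.Agent.Y760.PZ.core` and with the measures of the starting files: `Pool.Agent.LM.measure_d` (`1, ζ(2), ζ(3)`),
`Pool.Agent.ZF.Mea.pi_all` (`1, ζ(3), π ^ 4`), `Pool.Agent.Y801.Z5S.measure83` (`ζ(5)`), `Pool.Agent.TH456.TM` (`π`).
-/

set_option autoImplicit false

namespace Pool.Agent.Results.MP_e54452_nt.SmallAndLargeWeights

/-- `trunc [s_1, ..., s_r] m` is the sum of `∏ k_i ^ (-s_i)` over `m > k_1 > ... > k_r ≥ 1` -/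
noncomputable def trunc : List ℕ → ℕ → ℝ
  | [], _ => 1
  | s :: l, m => ∑ j ∈ Finset.Ico 1 m, trunc l j / (j : ℝ) ^ s

/-- the multiple zeta value `ζ(s_1, ..., s_r)`, `s_1` belongs to the largest variable -/
noncomputable def mzv : List ℕ → ℝ
  | [] => 1
  | s :: l => ∑' k : ℕ, trunc l (k + 1) / ((k + 1 : ℕ) : ℝ) ^ s

/-- words `[(a_1, b_1), ..., (a_r, b_r)]` with `r ≥ 1`, `a_1 ≥ 1` and no letter `(0, 0)` -/
def Admissible : List (ℕ × ℕ) → Prop
  | [] => False
  | x :: l => 1 ≤ x.1 ∧ ∀ y ∈ l, y ≠ (0, 0)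

/-- for a word `w = [(a_1, b_1), ..., (a_r, b_r)]` the multiple zeta value `ζ(a_1 n + b_1, ..., a_r n + b_r)` -/
noncomputable def zeta (n : ℕ) (w : List (ℕ × ℕ)) : ℝ := mzv (w.map fun x => x.1 * n + x.2)

/-- the stuffle product of two words, as a list of words (letters are added componentwise) -/
def stuffle : List (ℕ × ℕ) → List (ℕ × ℕ) → List (List (ℕ × ℕ))
  | [], v => [v]
  | x :: u, [] => [x :: u]
  | x :: u, y :: v => (stuffle u (y :: v)).map (x :: ·) ++ (stuffle (x :: u) v).map (y :: ·) ++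
      (stuffle u v).map ((x + y) :: ·)
termination_by u v => u.length + v.length

/-- the stuffle product of several words -/
def stuffles : List (List (ℕ × ℕ)) → List (List (ℕ × ℕ))
  | [] => [[]]
  | u :: M => (stuffles M).flatMap (stuffle u)

/-- the coefficient of the word `w` in the stuffle expansion of the combination `∑ c M • M` of the
products `M ∈ F` -/
def coeff (F : Finset (List (List (ℕ × ℕ)))) (c : List (List (ℕ × ℕ)) → ℤ) (w : List (ℕ × ℕ)) : ℤ :=
  ∑ M ∈ F, c M * ((stuffles M).countP (· = w) : ℤ)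

/-- the value `∑ (∑_i c M i θ_i) ∏_{u ∈ M} ζ(u(n))`, the outer sum over `M ∈ F` -/
noncomputable def value {l : ℕ} (θ : Fin l → ℝ) (F : Finset (List (List (ℕ × ℕ))))
    (c : List (List (ℕ × ℕ)) → Fin l → ℤ) (n : ℕ) : ℝ :=
  ∑ M ∈ F, (∑ i, (c M i : ℝ) * θ i) * (M.map fun u => zeta n u).prod

/-- `θ_1, ..., θ_l` have a (polynomial) measure of linear independence -/
def HasMeasure {l : ℕ} (θ : Fin l → ℝ) : Prop :=
  ∃ κ c : ℝ, 0 < c ∧ ∀ q : Fin l → ℤ, q ≠ 0 → ∀ H : ℝ, 1 ≤ H → (∀ i, |(q i : ℝ)| ≤ H) →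
    c * H ^ (-κ) ≤ |∑ i, (q i : ℝ) * θ i|

/-- For every finite set `F` of products of admissible words (the empty product is allowed) there are `B, C > 1` and
`n0` such that for every `n ≥ n0` and all integers `c M i` of absolute value at most `C ^ n`: either for every `i` the
combination `∑ c M i • M` vanishes in the stuffle algebra, and its value is zero at every `m ≥ n0`, or
`∑ c M i θ_i M(n)` is larger than `B ^ (-n)` in absolute value. -/
def OnlyStuffleRelations {l : ℕ} (θ : Fin l → ℝ) : Prop :=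
  ∀ F : Finset (List (List (ℕ × ℕ))), (∀ M ∈ F, ∀ u ∈ M, Admissible u) →
    ∃ B C : ℝ, 1 < B ∧ 1 < C ∧ ∃ n0 : ℕ, ∀ n : ℕ, n0 ≤ n → ∀ c : List (List (ℕ × ℕ)) → Fin l → ℤ,
      (∀ M ∈ F, ∀ i, |(c M i : ℝ)| ≤ C ^ n) →
      (∀ i, (∀ w, coeff F (fun M => c M i) w = 0) ∧
        ∀ m : ℕ, n0 ≤ m → ∑ M ∈ F, (c M i : ℝ) * (M.map fun u => zeta m u).prod = 0) ∨
      (B ^ n)⁻¹ < |value θ F c n|

open Pool.Agent.TH507.WD (hr mz) in
lemma trunc_eq : ∀ l m, trunc l m = hr l m := by
  intro l
  induction l with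
  | nil => intro m; rw [trunc, hr]
  | cons s l ih =>
    intro m
    rw [trunc, hr]
    exact Finset.sum_congr rfl fun j _ => by rw [ih]

open Pool.Agent.TH507.WD (mz) in
lemma mzv_eq : ∀ l, mzv l = mz l := by
  intro l
  cases l with
  | nil => rw [mzv, mz]
  | cons s l =>
    rw [mzv, mz]
    exact tsum_congr fun k => by rw [trunc_eq]

lemma mzv_one (s : ℕ) : mzv [s] = Pool.Agent.H337R2.zr s := by
  rw [mzv, Pool.Agent.H337R2.zr]
  refine tsum_congr fun k => ?_
  rw [trunc]
  push_cast
  rfl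

theorem main {l : ℕ} (θ : Fin l → ℝ) (hθ : Pool.Agent.Y760.PZ.LM θ) : OnlyStuffleRelations θ := by
  intro F hF
  have h3 : ∀ u v, stuffle u v = Pool.Agent.TH507.WG.st u v := by
    intro u v
    induction u, v using Pool.Agent.TH507.WG.st.induct with
    | case1 v => rw [stuffle, Pool.Agent.TH507.WG.st]
    | case2 x u => rw [stuffle, Pool.Agent.TH507.WG.st]
    | case3 x u y v ih1 ih2 ih3 => rw [stuffle, Pool.Agent.TH507.WG.st, ih1, ih2, ih3]
  have h4 : ∀ M, stuffles M = Pool.Agent.TH507.WG.stl M := by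
    intro M
    induction M with
    | nil => rw [stuffles, Pool.Agent.TH507.WG.stl]
    | cons u M ih =>
      rw [stuffles, Pool.Agent.TH507.WG.stl, ih]
      congr 1
      funext v
      exact h3 u v
  have h5 : ∀ (c : List (List (ℕ × ℕ)) → ℤ) w, coeff F c w = Pool.Agent.TH507.DS.coM F c w := by
    intro c w
    rw [coeff, Pool.Agent.TH507.DS.coM]
    simp only [h4]
  have hz : ∀ n u, zeta n u = Pool.Agent.TH507.WD.mz (Pool.Agent.TH507.WG.ar n u) := fun n u => mzv_eq _
  have h6 : ∀ c n, value θ F c n = ∑ M ∈ F, (∑ i, (c M i : ℝ) * θ i) *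
      (M.map fun u => Pool.Agent.TH507.WD.mz (Pool.Agent.TH507.WG.ar n u)).prod := by
    intro c n
    rw [value]
    simp only [hz]
  have hM : ∀ M ∈ F, ∀ u ∈ M, Pool.Agent.TH507.WG.HP u ∧ Pool.Agent.TH507.WG.OK u := by
    intro M hM u hu
    have h := hF M hM u hu
    cases u with
    | nil => exact h.elim
    | cons x l =>
      refine ⟨h.1, fun y hy hy1 => ?_⟩
      rcases List.mem_cons.1 hy with rfl | hy
      · have h13 := h.1
        omega
      · have h13 := h.2 y hy
        by_contra h14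
        exact h13 (Prod.ext hy1 (by show y.2 = 0; omega))
  obtain ⟨B, C, hB, hC, n0, hlen, h⟩ := Pool.Agent.Q217.MZ.affine θ hθ F hM
  refine ⟨B, C, hB, hC, n0, fun n hn c hc => ?_⟩
  by_cases hw : ∃ w i, Pool.Agent.TH507.DS.coM F (fun M => c M i) w ≠ 0
  · right
    rw [h6]
    exact h n hn c hc hw
  · left
    push Not at hw
    refine fun i => ⟨fun w => by rw [h5, hw w i], fun m hm => ?_⟩
    have h7 := Pool.Agent.TH507.DS.expandM F hM (hlen m hm) (fun M => c M i)
      (F.biUnion fun M => (Pool.Agent.TH507.WG.stl M).toFinset)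
      (fun M hM w hw => Finset.mem_biUnion.2 ⟨M, hM, List.mem_toFinset.2 hw⟩)
    simp only [hz]
    rw [h7]
    exact Finset.sum_eq_zero fun w _ => by rw [hw w i, Int.cast_zero, zero_mul]

/-- **Theorem.** Real numbers with a measure of linear independence satisfy, together with the multiple zeta values with
growing first argument, only the stuffle relations between the latter, in the sense of `OnlyStuffleRelations`.  This
applies to `1, ζ(2), ζ(3)`, to `1, ζ(3), ζ(4)`, to `1, ζ(5)` and to the powers `1, π, ..., π ^ D`. -/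
theorem result :
    (∀ (l : ℕ) (θ : Fin l → ℝ), HasMeasure θ → OnlyStuffleRelations θ) ∧
    OnlyStuffleRelations ![1, mzv [2], mzv [3]] ∧
    OnlyStuffleRelations ![1, mzv [3], mzv [4]] ∧
    OnlyStuffleRelations ![1, mzv [5]] ∧
    ∀ D : ℕ, OnlyStuffleRelations fun i : Fin (D + 1) => Real.pi ^ (i : ℕ) := by
  refine ⟨fun l θ hθ => main θ ?_, main _ ?_, main _ ?_, main _ ?_, fun D => main _ (Pool.Agent.Q217.MZ.LM_pi D)⟩
  · obtain ⟨κ, c, hc, h⟩ := hθ
    refine ⟨max κ 0, c, le_max_right _ _, hc, fun q hq H hH hb => ?_⟩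
    have hH0 : 0 < H := by linarith
    have h1 := h q hq H hH hb
    rw [Real.rpow_neg hH0.le, ← div_eq_mul_inv, div_le_iff₀ (Real.rpow_pos_of_pos hH0 κ)] at h1
    calc c ≤ |∑ i, (q i : ℝ) * θ i| * H ^ κ := h1
      _ = H ^ κ * |∑ i, (q i : ℝ) * θ i| := mul_comm _ _
      _ ≤ _ := by
        gcongr
        exact le_max_left _ _
  · rw [mzv_one, mzv_one]
    exact Pool.Agent.Q217.MZ.LM_zeta23
  · rw [mzv_one, mzv_one]
    refine Pool.Agent.Q217.MZ.LM_scale Pool.Agent.Q217.MZ.LM_zeta34 ![1, 1, 1] ![1, 1, 90] ?_ ?_ ?_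
    · intro i; fin_cases i <;> decide
    · intro i; fin_cases i <;> decide
    · intro i
      fin_cases i
      · simp
      · simp
      · show Pool.Agent.H337R2.zr 4 = Real.pi ^ 4 * ((1 : ℕ) : ℝ) / ((90 : ℕ) : ℝ)
        rw [Pool.Agent.ZF.Mea.zr4_eq]
        push_cast
        ring
  · rw [mzv_one]
    exact Pool.Agent.Q217.MZ.LM_zeta5

end Pool.Agent.Results.MP_e54452_nt.SmallAndLargeWeights
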